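import Pool.Agent.MP_3ee8cb_gt.ST.Defs
import Pool.Agent.MP_3ee8cb_gt.RS.Bridge

/-! From the short definitions to the working ones. -/

namespace Pool.Agent.MP_3ee8cb_gt.ST

open scoped RealInnerProductSpace

variable {n : ℕ}

theorem br_met (g : Met n) (h1 : ∀ x v, IsLinearMap ℝ fun u => g x u v)
    (h2 : ∀ x u v, g x u v = g x v u) : ∃ g0 : CR.Met n, g = fun x u v => g0 x u v := by
  refine ⟨fun x => LinearMap.toContinuousLinearMap
    ((LinearMap.toContinuousLinearMap (𝕜 := ℝ) (E := E n) (F' := ℝ)).toLinearMap ∘ₗ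
      LinearMap.mk₂ ℝ (g x) (fun a a' b => (h1 x b).1 a a') (fun c a b => (h1 x b).2 c a)
        (fun a b b' => ?_) (fun c a b => ?_)), rfl⟩
  · rw [h2 x a, h2 x a, h2 x a]; exact (h1 x a).1 b b'
  · rw [h2 x a, h2 x a]; exact (h1 x a).2 c b

theorem br_lin (ε : ℝ) (J : E n → E n) (h : ∀ u v, ip (J u) v = ε * ip u (J v)) :
    ∃ J0 : E n →L[ℝ] E n, J = J0 := by
  simp only [ip] at h
  refine ⟨LinearMap.toContinuousLinearMap ⟨⟨J, fun a b => ?_⟩, fun c a => ?_⟩, rfl⟩
  · refine ext_inner_right ℝ fun v => ?_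
    rw [inner_add_left, h, h, h, inner_add_left, mul_add]
  · refine ext_inner_right ℝ fun v => ?_
    simp only [RingHom.id_apply, real_inner_smul_left, h]
    ring

theorem br_riem {g : CR.Met n} (H : Riem fun x u v => g x u v) : CR.Riem g :=
  ⟨contDiff_clm_apply_iff.2 fun u => contDiff_clm_apply_iff.2 fun v => H.smooth u v, H.symm, H.pos⟩

theorem br_flow {g : CR.Met n} (H : CR.Riem g) {Φ : ℝ → CR.UT g → CR.UT g}
    (f : IsFlow (fun x u v => g x u v) Φ) : CR.IsFlow g Φ := by
  refine ⟨f.zero, f.vel, fun p t w => ?_⟩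
  have h1 := (H.smooth.differentiable (by norm_num) (Φ t p).1.1).hasFDerivAt
  have h2 := ((h1.clm_apply (hasFDerivAt_const (Φ t p).1.2 _)).clm_apply
    (hasFDerivAt_const (Φ t p).1.2 _)).fderiv
  have h3 := f.geo p t w
  simp only [dr] at h3
  rw [h2] at h3
  simpa using h3

theorem br_deck {g : CR.Met n} {Γ : Type} [Group Γ] [MulAction Γ (E n)]
    (H : Deck (fun x u v => g x u v) Γ) : CR.Deck g Γ :=
  ⟨H.smooth, H.iso, H.free, H.disc, H.cpt⟩

theorem br_rank {h : Met n} (H : RankOne h) :
    ∃ h0 : CR.Met n, (h = fun x u v => h0 x u v) ∧ CR.RankOne h0 := by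
  obtain ⟨c, P, hc, hP, hh⟩ := H
  have K : CR.KLine P := by
    rcases hP with ⟨k, J, h1, h2, h3, h4⟩ | ⟨hn, I, h1, h2, h3, h4, h5⟩
    · choose J0 hJ using fun i => br_lin (-1) (J i) fun u v => by rw [h1]; ring
      obtain rfl : J = fun i u => J0 i u := funext hJ
      refine Or.inl ⟨k, J0, h1, h2, fun i j u hij => ⟨(h3 i j u hij).1, ?_⟩, h4⟩
      obtain ⟨a, ha⟩ := (h3 i j u hij).2
      refine (Submodule.mem_span_range_iff_exists_fun ℝ).2 ⟨a, ext_inner_right ℝ fun w => ?_⟩
      rw [sum_inner]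
      simp only [real_inner_smul_left]
      exact (ha w).symm
    · choose I0 hI using fun i => br_lin 1 (I i) fun u v => by rw [h1]; ring
      obtain rfl : I = fun i u => I0 i u := funext hI
      refine Or.inr ⟨hn, I0, h1, h2, h3, fun w => ?_, fun y u v => ?_⟩
      · have := h4 w
        simp only [ip, real_inner_self_eq_norm_sq] at this
        rw [this]; ring
      · simpa only [ip, real_inner_self_eq_norm_sq] using h5 y u v
  have L : (∀ x v, IsLinearMap ℝ fun u => P x u v) ∧ ∀ x u v, P x u v = P x v u := by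
    rcases K with ⟨k, J, -, -, -, h4⟩ | ⟨-, I, h1, -, -, -, h5⟩
    · refine ⟨fun x v => ⟨fun a b => ?_, fun r a => ?_⟩, fun x u v => ?_⟩
      · simp only [h4, inner_add_right, add_mul, Finset.sum_add_distrib]; ring
      · simp only [h4, real_inner_smul_right, smul_eq_mul, mul_add, Finset.mul_sum, mul_assoc]
      · simp only [h4, mul_comm]
    · refine ⟨fun x v => ⟨fun a b => ?_, fun r a => ?_⟩, fun x u v => ?_⟩
      · simp only [h5, map_add, inner_add_left, mul_add, Finset.sum_add_distrib]; ring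
      · simp only [h5, map_smul, real_inner_smul_left, smul_eq_mul, mul_left_comm _ r,
          ← Finset.mul_sum]
        ring
      · rw [h5, h5, real_inner_comm u v]
        simp only [h1 _ u v, real_inner_comm (I _ v) u]
  obtain ⟨h0, e⟩ := br_met h
    (fun x v => ⟨fun a b => by
        simp only [hh, ip, inner_add_left, inner_add_right, (L.1 x v).1 a b]; ring,
      fun r a => by
        have := (L.1 x v).2 r a
        simp only [smul_eq_mul] at this
        simp only [hh, ip, real_inner_smul_left, real_inner_smul_right, this, smul_eq_mul]; ring⟩)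
    (fun x u v => by simp only [hh, ip, L.2 x u v, real_inner_comm u v]; ring)
  refine ⟨h0, e, c, P, hc, K, fun y u v => ?_⟩
  have := hh y u v
  rw [e] at this
  simpa only [ip, real_inner_self_eq_norm_sq] using this

end Pool.Agent.MP_3ee8cb_gt.ST
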