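import Mathlib

namespace Pool.Agent.MP_3ee8cb_gt.ST

/-- Euclidean `n`-space. -/
abbrev E (n : ℕ) := EuclideanSpace ℝ (Fin n)

/-- `g x u v` is the product of the vectors `u`, `v` at the point `x`. -/
abbrev Met (n : ℕ) := E n → E n → E n → ℝ

variable {n : ℕ}

/-- The Euclidean inner product. -/
noncomputable def ip (u v : E n) : ℝ := inner ℝ u v

/-- The derivative of a map at `x` in the direction `u`. -/
noncomputable def dv (f : E n → E n) (x u : E n) : E n := fderiv ℝ f x u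

/-- The derivative of a function at `x` in the direction `u`. -/
noncomputable def dr (f : E n → ℝ) (x u : E n) : ℝ := fderiv ℝ f x u

def C1 (f : E n → E n) : Prop := ContDiff ℝ 1 f

/-- A Riemannian metric of class `C²`. -/
structure Riem (g : Met n) : Prop where
  smooth : ∀ u v, ContDiff ℝ 2 fun x => g x u v
  lin : ∀ x v, IsLinearMap ℝ fun u => g x u v
  symm : ∀ x u v, g x u v = g x v u
  pos : ∀ x v, v ≠ 0 → 0 < g x v v

/-- Unit tangent vectors. -/
abbrev UT (g : Met n) := {p : E n × E n // g p.1 p.2 p.2 = 1}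

/-- `Φ` is the geodesic flow: the orbit of `p` starts at `p` and is the velocity lift of a
solution of the geodesic equation `d/dt g(c)(c', w) = (1/2) (D_w g)(c)(c', c')`. -/
structure IsFlow (g : Met n) (Φ : ℝ → UT g → UT g) : Prop where
  zero : ∀ p, Φ 0 p = p
  vel : ∀ p t, HasDerivAt (fun s => (Φ s p).1.1) (Φ t p).1.2 t
  geo : ∀ p t w, HasDerivAt (fun s => g (Φ s p).1.1 (Φ s p).1.2 w)
    (dr (fun y => g y (Φ t p).1.2 (Φ t p).1.2) (Φ t p).1.1 w / 2) t

/-- The action on tangent vectors. -/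
noncomputable def tm {Γ : Type} [Group Γ] [MulAction Γ (E n)] (γ : Γ) (p : E n × E n) :
    E n × E n := (γ • p.1, dv (fun y => γ • y) p.1 p.2)

/-- A free, properly discontinuous, cocompact action by isometries of `g`. -/
structure Deck (g : Met n) (Γ : Type) [Group Γ] [MulAction Γ (E n)] : Prop where
  smooth : ∀ γ : Γ, C1 fun x : E n => γ • x
  iso : ∀ (γ : Γ) x u v, g (γ • x) (tm γ (x, u)).2 (tm γ (x, v)).2 = g x u v
  free : ∀ (γ : Γ) (x : E n), γ • x = x → γ = 1
  disc : ProperlyDiscontinuousSMul Γ (E n)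
  cpt : ∃ K : Set (E n), IsCompact K ∧ ∀ x : E n, ∃ γ : Γ, γ • x ∈ K

/-- The unit tangent bundle of the quotient manifold. -/
abbrev UM (g : Met n) (Γ : Type) [Group Γ] [MulAction Γ (E n)] :=
  Quot fun p q : UT g => ∃ γ : Γ, q.1 = tm γ p.1

/-- The projection to the unit tangent bundle of the quotient manifold. -/
def pj {g : Met n} (Γ : Type) [Group Γ] [MulAction Γ (E n)] (p : UT g) : UM g Γ := Quot.mk _ p

/-- `f` conjugates the flows induced on the quotients. -/
def Conjug {g h : Met n} {Γ Λ : Type} [Group Γ] [Group Λ] [MulAction Γ (E n)] [MulAction Λ (E n)]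
    (Φ : ℝ → UT g → UT g) (Ψ : ℝ → UT h → UT h) (f : UM g Γ → UM h Λ) : Prop :=
  ∀ t p q, f (pj Γ p) = pj Λ q → f (pj Γ (Φ t p)) = pj Λ (Ψ t q)

/-- `P y u v` is `‖y‖²` times the inner product of the projections of `u`, `v` on the `K`-line
through `y`, for `K` real, complex or quaternionic (`k = 0, 1, 3` imaginary units `J`). -/
def KLine (P : Met n) : Prop := ∃ (k : ℕ) (J : Fin k → E n → E n),
  (∀ i u v, ip (J i u) v = -ip u (J i v)) ∧ (∀ i u, J i (J i u) = -u) ∧
  (∀ i j u, i ≠ j → J i (J j u) = -J j (J i u) ∧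
    ∃ a : Fin k → ℝ, ∀ w, ip (J i (J j u)) w = ∑ l, a l * ip (J l u) w) ∧
  ∀ y u v, P y u v = ip y u * ip y v + ∑ i, ip (J i y) u * ip (J i y) v

/-- The same for the Cayley plane: a `Spin(9)` structure `I` on `ℝ¹⁶`. -/
def OLine (P : Met n) : Prop := n = 16 ∧ ∃ I : Fin 9 → E n → E n,
  (∀ i u v, ip (I i u) v = ip u (I i v)) ∧ (∀ i u, I i (I i u) = u) ∧
  (∀ i j u, i ≠ j → I i (I j u) = -I j (I i u)) ∧ (∀ w, ∑ i, ip (I i w) w ^ 2 = ip w w ^ 2) ∧
  ∀ y u v, P y u v = (ip y y * ip u v + ∑ i, ip (I i y) y * ip (I i u) v) / 2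

/-- `h` is the metric of a rank one symmetric space of noncompact type, at any scale, in the
coordinate `y = sinh r • θ` (`r`, `θ` geodesic polar coordinates). -/
def RankOne (h : Met n) : Prop := ∃ (c : ℝ) (P : Met n), 0 < c ∧ (KLine P ∨ OLine P) ∧
  ∀ y u v, h y u v = c * (ip u v + P y u v - (1 + (1 + ip y y)⁻¹) * (ip y u * ip y v))

end Pool.Agent.MP_3ee8cb_gt.ST
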